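import Pool.Agent.Lib.MP_9569f1_co.Combine

/-! # Lines of `PG(3,q)`, `q` even, in the model `F × F`, `F = K[ω]`, `ω² = ω + ε`. -/

set_option autoImplicit false
set_option linter.unusedSectionVars false
set_option linter.unusedVariables false

namespace Pool.Agent.Lib.MP_9569f1_co.Even

open Module QuadraticAlgebra

section

variable {K : Type*} [Field K] {ε : K}

/-- The line with equation `Y = α X + γ (star X)`. -/
def lineG (α γ : QuadraticAlgebra K ε 1) :
    Submodule K (QuadraticAlgebra K ε 1 × QuadraticAlgebra K ε 1) where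
  carrier := {p | p.2 = α * p.1 + γ * star p.1}
  add_mem' := by
    rintro p q hp hq
    simp only [Set.mem_ofPred_eq, Prod.snd_add, Prod.fst_add, star_add] at *
    rw [hp, hq]; ring
  zero_mem' := by simp
  smul_mem' := by
    rintro c p hp
    simp only [Set.mem_ofPred_eq, Prod.smul_fst, Prod.smul_snd] at *
    rw [hp]
    ext <;> simp <;> ring

lemma mem_lineG {α γ : QuadraticAlgebra K ε 1}
    {p : QuadraticAlgebra K ε 1 × QuadraticAlgebra K ε 1} :
    p ∈ lineG α γ ↔ p.2 = α * p.1 + γ * star p.1 := Iff.rfl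

/-- The line `X = 0`. -/
def lineInf : Submodule K (QuadraticAlgebra K ε 1 × QuadraticAlgebra K ε 1) where
  carrier := {p | p.1 = 0}
  add_mem' := by
    rintro p q hp hq
    simp only [Set.mem_ofPred_eq, Prod.fst_add] at *
    rw [hp, hq]; simp
  zero_mem' := by simp
  smul_mem' := by
    rintro c p hp
    simp only [Set.mem_ofPred_eq, Prod.smul_fst] at *
    rw [hp]; simp

lemma mem_lineInf {p : QuadraticAlgebra K ε 1 × QuadraticAlgebra K ε 1} :
    p ∈ (lineInf : Submodule K (QuadraticAlgebra K ε 1 × QuadraticAlgebra K ε 1)) ↔ p.1 = 0 :=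
  Iff.rfl

/-- The line spanned by `(x, u x)` and `(0, v x)`. -/
def lineB (u v x : QuadraticAlgebra K ε 1) :
    Submodule K (QuadraticAlgebra K ε 1 × QuadraticAlgebra K ε 1) where
  carrier := {p | ∃ a b : K, p.1 = a • x ∧ p.2 = a • (u * x) + b • (v * x)}
  add_mem' := by
    rintro p q ⟨a, b, h1, h2⟩ ⟨a', b', h1', h2'⟩
    refine ⟨a + a', b + b', ?_, ?_⟩
    · rw [Prod.fst_add, h1, h1', add_smul]
    · rw [Prod.snd_add, h2, h2']; module
  zero_mem' := ⟨0, 0, by simp, by simp⟩
  smul_mem' := by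
    rintro c p ⟨a, b, h1, h2⟩
    refine ⟨c * a, c * b, ?_, ?_⟩
    · rw [Prod.smul_fst, h1, mul_smul]
    · rw [Prod.smul_snd, h2]; module

lemma mem_lineB {u v x : QuadraticAlgebra K ε 1}
    {p : QuadraticAlgebra K ε 1 × QuadraticAlgebra K ε 1} :
    p ∈ lineB u v x ↔ ∃ a b : K, p.1 = a • x ∧ p.2 = a • (u * x) + b • (v * x) := Iff.rfl

lemma star_smul' (c : K) (x : QuadraticAlgebra K ε 1) : star (c • x) = c • star x := by
  ext <;> simp <;> ring

lemma finrank_lineG (α γ : QuadraticAlgebra K ε 1) : finrank K (lineG α γ) = 2 := by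
  let T : QuadraticAlgebra K ε 1 →ₗ[K] QuadraticAlgebra K ε 1 × QuadraticAlgebra K ε 1 :=
    { toFun := fun X => (X, α * X + γ * star X)
      map_add' := by
        intro X Y
        ext <;> simp <;> ring
      map_smul' := by
        intro c X
        ext <;> simp <;> ring }
  have hinj : Function.Injective T := fun X Y h => (Prod.ext_iff.mp h).1
  have hr : LinearMap.range T = lineG α γ := by
    ext p
    rw [LinearMap.mem_range, mem_lineG]
    constructor
    · rintro ⟨X, rfl⟩; rfl
    · intro h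
      exact ⟨p.1, Prod.ext rfl h.symm⟩
  rw [← hr, LinearMap.finrank_range_of_inj hinj, QuadraticAlgebra.finrank_eq_two]

lemma finrank_lineInf : finrank K
    (lineInf : Submodule K (QuadraticAlgebra K ε 1 × QuadraticAlgebra K ε 1)) = 2 := by
  have hinj : Function.Injective
    (LinearMap.inr K (QuadraticAlgebra K ε 1) (QuadraticAlgebra K ε 1)) := LinearMap.inr_injective
  have hr : LinearMap.range (LinearMap.inr K (QuadraticAlgebra K ε 1) (QuadraticAlgebra K ε 1))
      = lineInf := by
    ext p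
    rw [LinearMap.mem_range, mem_lineInf]
    constructor
    · rintro ⟨X, rfl⟩; rfl
    · intro h
      exact ⟨p.2, Prod.ext h.symm rfl⟩
  rw [← hr, LinearMap.finrank_range_of_inj hinj, QuadraticAlgebra.finrank_eq_two]

lemma finrank_V :
    finrank K (QuadraticAlgebra K ε 1 × QuadraticAlgebra K ε 1) = 4 := by
  rw [finrank_prod, QuadraticAlgebra.finrank_eq_two]

variable [Hab : Fact (∀ r : K, r ^ 2 ≠ ε + 1 * r)]

lemma norm_smul' (a : K) (x : QuadraticAlgebra K ε 1) : norm (a • x) = a ^ 2 * norm x := by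
  simp [norm_def]; ring

lemma finrank_lineB (u : QuadraticAlgebra K ε 1) {v x : QuadraticAlgebra K ε 1} (hv : v ≠ 0)
    (hx : x ≠ 0) : finrank K (lineB u v x) = 2 := by
  let T : K × K →ₗ[K] QuadraticAlgebra K ε 1 × QuadraticAlgebra K ε 1 :=
    { toFun := fun c => (c.1 • x, c.1 • (u * x) + c.2 • (v * x))
      map_add' := by
        intro X Y
        ext <;> simp <;> ring
      map_smul' := by
        intro c X
        ext <;> simp <;> ring }
  have hinj : Function.Injective T := by
    rw [← LinearMap.ker_eq_bot, LinearMap.ker_eq_bot']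
    rintro ⟨a, b⟩ h
    have h1 : a • x = 0 := (Prod.ext_iff.mp h).1
    have h2 : a • (u * x) + b • (v * x) = 0 := (Prod.ext_iff.mp h).2
    have ha : a = 0 := by
      rcases smul_eq_zero.mp h1 with h | h
      · exact h
      · exact absurd h hx
    rw [ha, zero_smul, zero_add] at h2
    have hb : b = 0 := by
      rcases smul_eq_zero.mp h2 with h | h
      · exact h
      · exact absurd h (mul_ne_zero hv hx)
    rw [ha, hb]; rfl
  have hr : LinearMap.range T = lineB u v x := by
    ext p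
    rw [LinearMap.mem_range, mem_lineB]
    constructor
    · rintro ⟨c, rfl⟩; exact ⟨c.1, c.2, rfl, rfl⟩
    · rintro ⟨a, b, h1, h2⟩
      exact ⟨(a, b), Prod.ext h1.symm h2.symm⟩
  rw [← hr, LinearMap.finrank_range_of_inj hinj]
  simp

/-- The condition which says that `1` and `ω + τ φ` span a field of linear maps. -/
def Good (τ : QuadraticAlgebra K ε 1) : Prop := ∀ r : K, r ^ 2 + r + ε + norm τ ≠ 0

lemma good_zero (h2 : (2 : K) = 0) : Good (0 : QuadraticAlgebra K ε 1) := by
  intro r hr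
  apply Hab.out r
  rw [QuadraticAlgebra.norm_zero, add_zero] at hr
  linear_combination hr - (ε + r) * h2

lemma decomp_zero (h2 : (2 : K) = 0) {τ X : QuadraticAlgebra K ε 1} (hτ : Good τ) (hX : X ≠ 0)
    {m a : K} (h : m • X + a • (ω * X + τ * star X) = 0) : m = 0 ∧ a = 0 := by
  have h1 : (⟨m, a⟩ : QuadraticAlgebra K ε 1) * X = (-a) • (τ * star X) := by
    have e1 : (⟨m, a⟩ : QuadraticAlgebra K ε 1) = m • (1 : QuadraticAlgebra K ε 1) + a • ω := by
      ext <;> simp
    rw [e1]
    simp only [Algebra.smul_def, mul_one, map_neg] at h ⊢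
    linear_combination h
  have h3 := congrArg QuadraticAlgebra.norm h1
  rw [norm_smul', map_mul, map_mul, QuadraticAlgebra.norm_star] at h3
  have hN : norm X ≠ 0 := fun h => hX (norm_eq_zero_iff_eq_zero.mp h)
  have h4 : norm (⟨m, a⟩ : QuadraticAlgebra K ε 1) = a ^ 2 * norm τ := by
    apply mul_right_cancel₀ hN
    rw [h3]; ring
  rw [norm_def] at h4
  simp only at h4
  have ha : a = 0 := by
    by_contra ha
    apply hτ (m / a)
    have e : (m / a) ^ 2 + m / a + ε + norm τ = (m ^ 2 + m * a + ε * a ^ 2 + a ^ 2 * norm τ) / a ^ 2 := by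
      field_simp
    rw [e, div_eq_zero_iff]
    left
    linear_combination h4 + (ε * a ^ 2 + a ^ 2 * norm τ) * h2
  rw [ha] at h4
  have hm : m = 0 := by
    have : m ^ 2 = 0 := by linear_combination h4
    exact pow_eq_zero_iff (n := 2) (by norm_num) |>.mp this
  exact ⟨hm, ha⟩

lemma decomp_uniq (h2 : (2 : K) = 0) {τ X : QuadraticAlgebra K ε 1} (hτ : Good τ) (hX : X ≠ 0)
    {m a m' a' : K}
    (h : m • X + a • (ω * X + τ * star X) = m' • X + a' • (ω * X + τ * star X)) :
    m = m' ∧ a = a' := by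
  have h1 : (m - m') • X + (a - a') • (ω * X + τ * star X) = 0 := by
    rw [sub_smul, sub_smul]
    linear_combination (exp := 1) h
  obtain ⟨h2, h3⟩ := decomp_zero h2 hτ hX h1
  exact ⟨sub_eq_zero.mp h2, sub_eq_zero.mp h3⟩

lemma decomp_exists (h2 : (2 : K) = 0) {τ X : QuadraticAlgebra K ε 1} (hτ : Good τ) (hX : X ≠ 0)
    (Y : QuadraticAlgebra K ε 1) : ∃ m a : K, Y = m • X + a • (ω * X + τ * star X) := by
  let T : K × K →ₗ[K] QuadraticAlgebra K ε 1 :=
    { toFun := fun c => c.1 • X + c.2 • (ω * X + τ * star X)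
      map_add' := by
        intro X Y
        ext <;> simp <;> ring
      map_smul' := by
        intro c X
        ext <;> simp <;> ring }
  have hinj : Function.Injective T := by
    rintro ⟨a, b⟩ ⟨a', b'⟩ h
    obtain ⟨h1, h2⟩ := decomp_uniq (m := a) (a := b) (m' := a') (a' := b') h2 hτ hX h
    rw [h1, h2]
  have hsurj : Function.Surjective T := by
    rw [← LinearMap.injective_iff_surjective_of_finrank_eq_finrank]
    · exact hinj
    · rw [QuadraticAlgebra.finrank_eq_two]; simp
  obtain ⟨c, hc⟩ := hsurj Y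
  exact ⟨c.1, c.2, hc.symm⟩

lemma star_omega (h2 : (2 : K) = 0) : star (ω : QuadraticAlgebra K ε 1) = ω + 1 := by
  ext
  · simp
  · simp
    linear_combination -h2

lemma two_eq_zero (h2 : (2 : K) = 0) : (2 : QuadraticAlgebra K ε 1) = 0 := by
  have : (algebraMap K (QuadraticAlgebra K ε 1)) 2 = algebraMap K (QuadraticAlgebra K ε 1) 0 := by
    rw [h2]
  rwa [map_ofNat, map_zero] at this

lemma omega_ne_zero : (ω : QuadraticAlgebra K ε 1) ≠ 0 := by
  intro h
  have := congrArg QuadraticAlgebra.im h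
  simp at this

lemma lineG_inj (h2 : (2 : K) = 0) {α γ α' γ' : QuadraticAlgebra K ε 1}
    (h : lineG α γ = lineG α' γ') : α = α' ∧ γ = γ' := by
  have h1 : ((1 : QuadraticAlgebra K ε 1), α * 1 + γ * star 1) ∈ lineG α' γ' := by
    rw [← h]; rfl
  have h3 : ((ω : QuadraticAlgebra K ε 1), α * ω + γ * star ω) ∈ lineG α' γ' := by
    rw [← h]; rfl
  rw [mem_lineG] at h1 h3
  simp only [star_one, mul_one] at h1
  simp only [star_omega h2] at h3
  have e : γ = γ' := by linear_combination h3 - ω * h1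
  refine ⟨?_, e⟩
  rw [e] at h1
  exact add_right_cancel h1

lemma lineG_ne_lineInf (α γ : QuadraticAlgebra K ε 1) : lineG α γ ≠ lineInf := by
  intro h
  have h1 : ((1 : QuadraticAlgebra K ε 1), α * 1 + γ * star 1) ∈
      (lineInf : Submodule K (QuadraticAlgebra K ε 1 × QuadraticAlgebra K ε 1)) := by
    rw [← h]; rfl
  rw [mem_lineInf] at h1
  exact one_ne_zero h1

lemma lineG_ne_lineB (α γ u : QuadraticAlgebra K ε 1) {v x : QuadraticAlgebra K ε 1} (hv : v ≠ 0)
    (hx : x ≠ 0) : lineG α γ ≠ lineB u v x := by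
  intro h
  have h1 : ((0 : QuadraticAlgebra K ε 1), v * x) ∈ lineG α γ := by
    rw [h]; exact ⟨0, 1, by simp, by simp⟩
  rw [mem_lineG] at h1
  simp at h1
  rcases h1 with h1 | h1
  · exact hv h1
  · exact hx h1

lemma lineB_ne_lineInf (u v : QuadraticAlgebra K ε 1) {x : QuadraticAlgebra K ε 1}
    (hx : x ≠ 0) : lineB u v x ≠ lineInf := by
  intro h
  have h1 : (x, u * x) ∈
      (lineInf : Submodule K (QuadraticAlgebra K ε 1 × QuadraticAlgebra K ε 1)) := by
    rw [← h]; exact ⟨1, 0, by simp, by simp⟩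
  rw [mem_lineInf] at h1
  exact hx h1

lemma lineB_congr (u v x : QuadraticAlgebra K ε 1) (c : K) {k k' : K} (hk : k ≠ 0) (hk' : k' ≠ 0) :
    lineB (u + c • v) (k' • v) (k • x) = lineB u v x := by
  ext p
  rw [mem_lineB, mem_lineB]
  constructor
  · rintro ⟨a, b, h1, h2⟩
    refine ⟨a * k, a * k * c + b * k * k', ?_, ?_⟩
    · rw [h1, smul_smul]
    · rw [h2]
      simp only [Algebra.smul_def, map_add, map_mul]; ring
  · rintro ⟨a, b, h1, h2⟩
    refine ⟨a / k, (b - a * c) / (k * k'), ?_, ?_⟩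
    · rw [h1, smul_smul, div_mul_cancel₀ _ hk]
    · have e1 : a = a / k * k := by field_simp
      have e2 : b = a / k * k * c + (b - a * c) / (k * k') * k * k' := by field_simp; ring
      rw [h2]
      conv_lhs => rw [e2]
      simp only [Algebra.smul_def, map_add, map_mul]
      have e3 : algebraMap K (QuadraticAlgebra K ε 1) a =
          algebraMap K (QuadraticAlgebra K ε 1) (a / k) * algebraMap K (QuadraticAlgebra K ε 1) k := by
        rw [← map_mul, ← e1]
      rw [e3]
      ring

lemma lineB_inj {u v x u' v' x' : QuadraticAlgebra K ε 1} (hv : v ≠ 0) (hv' : v' ≠ 0)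
    (hx : x ≠ 0) (hx' : x' ≠ 0) (h : lineB u v x = lineB u' v' x') :
    ∃ a c k : K, a ≠ 0 ∧ k ≠ 0 ∧ x = a • x' ∧ v' = k • v ∧ u' = u + c • v := by
  have h3 : (x, u * x) ∈ lineB u' v' x' := by
    rw [← h]; exact ⟨1, 0, by simp, by simp⟩
  have h4 : ((0 : QuadraticAlgebra K ε 1), v * x) ∈ lineB u' v' x' := by
    rw [← h]; exact ⟨0, 1, by simp, by simp⟩
  obtain ⟨a, b, e1, e2⟩ := h3
  obtain ⟨c, d, e3, e4⟩ := h4
  simp only at e1 e2 e3 e4
  have hc : c = 0 := by
    rcases smul_eq_zero.mp e3.symm with h | h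
    · exact h
    · exact absurd h hx'
  have ha : a ≠ 0 := by
    rintro rfl
    rw [zero_smul] at e1
    exact hx e1
  rw [hc, zero_smul, zero_add] at e4
  have hd : d ≠ 0 := by
    rintro rfl
    rw [zero_smul] at e4
    exact mul_ne_zero hv hx e4
  have e5 : a • v = d • v' := by
    apply mul_right_cancel₀ hx'
    rw [smul_mul_assoc, smul_mul_assoc, ← e4, e1, mul_smul_comm]
  have e6 : v' = (a / d) • v := by
    rw [div_eq_inv_mul, mul_smul, e5, smul_smul, inv_mul_cancel₀ hd, one_smul]
  have e7 : a • u = a • u' + b • v' := by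
    apply mul_right_cancel₀ hx'
    rw [add_mul, smul_mul_assoc, smul_mul_assoc, smul_mul_assoc, ← e2, e1, mul_smul_comm]
  refine ⟨a, -(b / d), a / d, ha, div_ne_zero ha hd, e1, e6, ?_⟩
  have e8 : a • u' = a • u - b • v' := by rw [e7]; ring
  have e9 : u' = a⁻¹ • (a • u - b • v') := by
    rw [← e8, smul_smul, inv_mul_cancel₀ ha, one_smul]
  rw [e9, e6, smul_sub, smul_smul, inv_mul_cancel₀ ha, one_smul, smul_smul, smul_smul, neg_smul,
    ← sub_eq_add_neg]
  congr 2
  field_simp

end

end Pool.Agent.Lib.MP_9569f1_co.Even
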