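import Pool.Agent.Lib.MP_9569f1_co.Combine

/-! # Switching in a packing. -/

set_option autoImplicit false
set_option linter.unusedSectionVars false

namespace Pool.Agent.Lib.MP_9569f1_co.Even

open Module

section

variable {K : Type*} {V : Type*} [Field K] [Fintype K] [AddCommGroup V] [Module K V]

lemma thru_image_pack {p : V} (hp : p ≠ 0) {P : Set (Set (Submodule K V))}
    (part : ∀ S ∈ P, IsPart S) (cover : ∀ l : Submodule K V, finrank K l = 2 → ∃ S ∈ P, l ∈ S) :
    thru p '' P = {l : Submodule K V | finrank K l = 2 ∧ p ∈ l} := by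
  ext l
  constructor
  · rintro ⟨S, hS, rfl⟩
    have h1 := thru_mem hp (part S hS)
    exact ⟨(part S hS).line _ h1.1, h1.2⟩
  · rintro ⟨h1, h2⟩
    obtain ⟨S, hS, hlS⟩ := cover l h1
    exact ⟨S, hS, thru_eq hp (part S hS) hlS h2⟩

/-- the number of spreads in a packing does not depend on the packing -/
lemma pack_of_cover (hV : finrank K V = 4) {P0 : Set (Set (Submodule K V))} (h0 : IsPack P0)
    {P : Set (Set (Submodule K V))} (part : ∀ S ∈ P, IsPart S)
    (disj : ∀ S ∈ P, ∀ T ∈ P, S ≠ T → Disjoint S T)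
    (cover : ∀ l : Submodule K V, finrank K l = 2 → ∃ S ∈ P, l ∈ S) : IsPack P := by
  refine ⟨part, disj, cover, ?_⟩
  have hnt : Nontrivial V := by
    apply Module.nontrivial_of_finrank_pos (R := K)
    omega
  obtain ⟨p, hp⟩ := exists_ne (0 : V)
  rw [← Set.ncard_image_of_injOn (thru_injOn hp part disj), thru_image_pack hp part cover,
    ← thru_image_pack hp h0.part h0.cover, Set.ncard_image_of_injOn (thru_injOn hp h0.part h0.disj),
    h0.ncard]

/-- switching: replace a part of a packing by another set of disjoint spreads with the same union -/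
lemma pack_switch (hV : finrank K V = 4) {P Q Q' : Set (Set (Submodule K V))} (h : IsPack P)
    (hQ : Q ⊆ P) (part : ∀ S ∈ Q', IsPart S) (disj : ∀ S ∈ Q', ∀ T ∈ Q', S ≠ T → Disjoint S T)
    (hU : ∀ l, (∃ S ∈ Q, l ∈ S) ↔ (∃ S ∈ Q', l ∈ S)) : IsPack ((P \ Q) ∪ Q') := by
  have hd : ∀ S ∈ P \ Q, ∀ T ∈ Q', Disjoint S T := by
    intro S hS T hT
    rw [Set.disjoint_left]
    intro l hl hlT
    obtain ⟨S', hS', hlS'⟩ := (hU l).mpr ⟨T, hT, hlT⟩
    have hne : S ≠ S' := fun e => hS.2 (e ▸ hS')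
    exact Set.disjoint_left.mp (h.disj S hS.1 S' (hQ hS') hne) hl hlS'
  refine pack_of_cover hV h ?_ ?_ ?_
  · rintro S (hS | hS)
    · exact h.part S hS.1
    · exact part S hS
  · rintro S (hS | hS) T (hT | hT) hne
    · exact h.disj S hS.1 T hT.1 hne
    · exact hd S hS T hT
    · exact (hd T hT S hS).symm
    · exact disj S hS T hT hne
  · intro l hl
    obtain ⟨S, hS, hlS⟩ := h.cover l hl
    by_cases hSQ : S ∈ Q
    · obtain ⟨T, hT, hlT⟩ := (hU l).mp ⟨S, hSQ, hlS⟩
      exact ⟨T, Or.inr hT, hlT⟩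
    · exact ⟨S, Or.inl ⟨hS, hSQ⟩, hlS⟩

end

end Pool.Agent.Lib.MP_9569f1_co.Even
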