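import Pool.Agent.Lib.MP_9569f1_co.Even.Pack
import Pool.Agent.Lib.MP_9569f1_co.Even.Switch

/-! # Complete partial packings of deficiency two in `PG(3,q)`, `q ≥ 4` even.

The packing `P0` consists of the regular spread `Σ` and the Hall spreads `Spr μ u v`. The pair
`Σ, Spr μ 0 ω` is replaced by `R = Full 0 0 ω μ` (regular) and `Sw 0 0 ω 0`; the spreads
`Spr μ u 1`, `u ∉ K`, are replaced by the spreads `T c = Sw (c ω) (c μ) 1 0`, `c ∈ K*`. The union of
`R`, `Spr μ 0 1` and `T 1` contains the regular spread `Full ω μ 1 0`, and the remaining lines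
contain a cycle of length five. -/

set_option autoImplicit false
set_option linter.unusedSectionVars false
set_option linter.unusedVariables false

namespace Pool.Agent.Lib.MP_9569f1_co.Even

open Module QuadraticAlgebra

section

variable {K : Type*} [Field K] {ε : K} [Hab : Fact (∀ r : K, r ^ 2 ≠ ε + 1 * r)]

/-! ### First switch -/

lemma re_im_eq (z : QuadraticAlgebra K ε 1) : z.re • (1 : QuadraticAlgebra K ε 1) + z.im • ω = z := by
  ext <;> simp

lemma first_union (μ : QuadraticAlgebra K ε 1) (u : QuadraticAlgebra K ε 1)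
    {v : QuadraticAlgebra K ε 1} (hv : v ≠ 0)
    (l : Submodule K (QuadraticAlgebra K ε 1 × QuadraticAlgebra K ε 1)) :
    (l ∈ Sig ∨ l ∈ Spr μ u v) ↔ (l ∈ Full u 0 v μ ∨ l ∈ Sw u 0 v 0) := by
  rw [mem_Spr]
  unfold Full Sw Pl Sig
  simp only [Set.mem_ofPred_eq, mul_zero, smul_zero, add_zero, zero_mul, zero_add]
  constructor
  · rintro ((h | ⟨α, rfl⟩) | (⟨m, a, ha, rfl⟩ | ⟨x, hx, rfl⟩))
    · exact Or.inl (Or.inl h)
    · have e := re_im_eq ((α - u) / v)
      by_cases ha : ((α - u) / v).im = 0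
      · refine Or.inl (Or.inr ⟨((α - u) / v).re, 0, ?_⟩)
        rw [ha] at e
        rw [e, zero_smul, mul_div_cancel₀ _ hv, add_sub_cancel]
      · refine Or.inr (Or.inl ⟨((α - u) / v).re, ((α - u) / v).im, ha, ?_⟩)
        rw [e, mul_div_cancel₀ _ hv, add_sub_cancel]
    · exact Or.inl (Or.inr ⟨m, a, rfl⟩)
    · exact Or.inr (Or.inr ⟨x, hx, rfl⟩)
  · rintro ((h | ⟨m, a, rfl⟩) | (⟨m, a, ha, rfl⟩ | ⟨x, hx, rfl⟩))
    · exact Or.inl (Or.inl h)
    · by_cases ha : a = 0
      · refine Or.inl (Or.inr ⟨u + v * (m • 1 + a • ω), ?_⟩)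
        rw [ha, zero_smul, zero_smul]
      · exact Or.inr (Or.inl ⟨m, a, ha, rfl⟩)
    · exact Or.inl (Or.inr ⟨_, rfl⟩)
    · exact Or.inr (Or.inr ⟨x, hx, rfl⟩)

lemma first_disj (h2 : (2 : K) = 0) {μ : QuadraticAlgebra K ε 1} (hμ0 : μ ≠ 0)
    (u : QuadraticAlgebra K ε 1) {v : QuadraticAlgebra K ε 1} (hv : v ≠ 0) :
    Disjoint (Full u 0 v μ) (Sw u 0 v 0) := by
  rw [Set.disjoint_left]
  unfold Full Sw Pl
  simp only [Set.mem_ofPred_eq, mul_zero, smul_zero, add_zero, zero_mul, zero_add]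
  rintro l (rfl | ⟨m, a, rfl⟩) (⟨m', a', ha', h⟩ | ⟨x, hx, h⟩)
  · exact lineG_ne_lineInf _ _ h.symm
  · exact lineB_ne_lineInf _ _ hx h.symm
  · obtain ⟨e1, e2⟩ := lineG_inj h2 h
    have ha : a = 0 := by
      rcases smul_eq_zero.mp e2 with h | h
      · exact h
      · exact absurd h (mul_ne_zero hv hμ0)
    rw [ha] at e1
    have e3 := mul_left_cancel₀ hv (add_left_cancel e1)
    have e4 := congrArg QuadraticAlgebra.im e3
    simp at e4
    exact ha' e4.symm
  · exact lineG_ne_lineB _ _ _ hv hx h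

/-! ### Second switch -/

/-- The spreads `T c`. -/
def Tc (μ : QuadraticAlgebra K ε 1) (c : K) :
    Set (Submodule K (QuadraticAlgebra K ε 1 × QuadraticAlgebra K ε 1)) :=
  Sw (c • ω) (c • μ) 1 0

lemma mem_Tc {μ : QuadraticAlgebra K ε 1} {c : K}
    {l : Submodule K (QuadraticAlgebra K ε 1 × QuadraticAlgebra K ε 1)} :
    l ∈ Tc μ c ↔ (∃ m a : K, a ≠ 0 ∧ l = lineG (c • ω + (m • 1 + a • ω)) (c • μ)) ∨
      ∃ x : QuadraticAlgebra K ε 1, x ≠ 0 ∧ l = lineB (c • (ω + μ * (star x / x))) 1 x := by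
  unfold Tc Sw Pl
  simp only [Set.mem_ofPred_eq, mul_zero, smul_zero, add_zero, one_mul, smul_add, smul_mul_assoc]

lemma w_im (h2 : (2 : K) = 0) {μ : QuadraticAlgebra K ε 1} (hμ : Good μ)
    {x : QuadraticAlgebra K ε 1} (hx : x ≠ 0) : (ω + μ * (star x / x)).im ≠ 0 := by
  intro h
  have e := re_im_eq (ω + μ * (star x / x))
  rw [h, zero_smul, add_zero] at e
  have e2 : (-(ω + μ * (star x / x)).re) • x + (1 : K) • (ω * x + μ * star x) = 0 := by
    have e3 : (ω + μ * (star x / x)) * x = ω * x + μ * star x := by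
      rw [add_mul, mul_assoc, div_mul_cancel₀ _ hx]
    rw [one_smul, ← e3]
    conv_lhs =>
      rw [← e]
    rw [smul_mul_assoc, one_mul, neg_smul]
    simp
  have := (decomp_zero h2 hμ hx e2).2
  exact one_ne_zero this

lemma Tc_disj (h2 : (2 : K) = 0) {μ : QuadraticAlgebra K ε 1} (hμ : Good μ) (hμ0 : μ ≠ 0)
    {c c' : K} (hcc : c ≠ c') : Disjoint (Tc μ c) (Tc μ c') := by
  rw [Set.disjoint_left]
  intro l hl hl'
  rw [mem_Tc] at hl hl'
  rcases hl with ⟨m, a, ha, rfl⟩ | ⟨x, hx, rfl⟩ <;> rcases hl' with ⟨m', a', ha', h⟩ | ⟨x', hx', h⟩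
  · exact hcc (smul_left_injective K hμ0 (lineG_inj h2 h).2)
  · exact lineG_ne_lineB _ _ _ one_ne_zero hx' h
  · exact lineG_ne_lineB _ _ _ one_ne_zero hx h.symm
  · obtain ⟨a, d, k, ha, hk, e1, e2, e3⟩ := lineB_inj one_ne_zero one_ne_zero hx hx' h
    have e4 : star x / x = star x' / x' := by
      rw [e1, star_smul']
      simp only [Algebra.smul_def]
      have ha2 : algebraMap K (QuadraticAlgebra K ε 1) a ≠ 0 := by
        rw [Ne, map_eq_zero]; exact ha
      field_simp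
    rw [← e4] at e3
    have hw := w_im h2 hμ hx
    generalize ω + μ * (star x / x) = w at e3 hw
    have e5 : c' * w.im = c * w.im := by
      have := congrArg QuadraticAlgebra.im e3
      simpa using this
    exact hcc (mul_right_cancel₀ hw e5).symm

lemma second_union (h2 : (2 : K) = 0) {μ : QuadraticAlgebra K ε 1} (hμ : Good μ)
    (l : Submodule K (QuadraticAlgebra K ε 1 × QuadraticAlgebra K ε 1)) :
    (∃ u : QuadraticAlgebra K ε 1, u.im ≠ 0 ∧ l ∈ Spr μ u 1) ↔
      (∃ c : K, c ≠ 0 ∧ l ∈ Tc μ c) := by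
  constructor
  · rintro ⟨u, hu, hl⟩
    rw [mem_Spr] at hl
    rcases hl with ⟨m, a, ha, rfl⟩ | ⟨x, hx, rfl⟩
    · refine ⟨a, ha, mem_Tc.mpr (Or.inl ⟨u.re + m, u.im, hu, ?_⟩)⟩
      rw [one_mul, one_mul]
      congr 1
      have e := re_im_eq u
      conv_lhs => rw [← e]
      rw [add_smul]
      ring
    · set w := ω + μ * (star x / x) with hw
      have hwi : w.im ≠ 0 := w_im h2 hμ hx
      refine ⟨u.im / w.im, div_ne_zero hu hwi, mem_Tc.mpr (Or.inr ⟨x, hx, ?_⟩)⟩
      rw [← hw]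
      have e : u = (u.im / w.im) • w + (u.re - u.im / w.im * w.re) • (1 : QuadraticAlgebra K ε 1) := by
        ext
        · simp
        · simp
          field_simp
      have := lineB_congr ((u.im / w.im) • w) 1 x (u.re - u.im / w.im * w.re)
        (one_ne_zero (α := K)) (one_ne_zero (α := K))
      rw [one_smul, one_smul, ← e] at this
      exact this
  · rintro ⟨c, hc, hl⟩
    rw [mem_Tc] at hl
    rcases hl with ⟨m, a, ha, rfl⟩ | ⟨x, hx, rfl⟩
    · refine ⟨a • ω, ?_, mem_Spr.mpr (Or.inl ⟨m, c, hc, ?_⟩)⟩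
      · simpa using ha
      · rw [one_mul, one_mul]
        congr 1
        ring
    · refine ⟨_, ?_, mem_Spr.mpr (Or.inr ⟨x, hx, rfl⟩)⟩
      rw [im_smul]
      exact mul_ne_zero hc (w_im h2 hμ hx)

/-! ### The packing -/

/-- The set of spreads replaced in the second switch. -/
def Q2 (μ : QuadraticAlgebra K ε 1) :
    Set (Set (Submodule K (QuadraticAlgebra K ε 1 × QuadraticAlgebra K ε 1))) :=
  {S | ∃ u : QuadraticAlgebra K ε 1, u.im ≠ 0 ∧ S = Spr μ u 1}

/-- The packing after both switches. -/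
def P2 (μ : QuadraticAlgebra K ε 1) :
    Set (Set (Submodule K (QuadraticAlgebra K ε 1 × QuadraticAlgebra K ε 1))) :=
  (((insert Sig (HallSet μ)) \ {Sig, Spr μ 0 ω} ∪ {Full 0 0 ω μ, Sw 0 0 ω 0}) \ Q2 μ) ∪
    {S | ∃ c : K, c ≠ 0 ∧ S = Tc μ c}

lemma inf_notMem_Spr (μ u : QuadraticAlgebra K ε 1) {v : QuadraticAlgebra K ε 1} (hv : v ≠ 0) :
    (lineInf : Submodule K (QuadraticAlgebra K ε 1 × QuadraticAlgebra K ε 1)) ∉ Spr μ u v := by
  rw [mem_Spr]
  rintro (⟨m, a, ha, h⟩ | ⟨x, hx, h⟩)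
  · exact lineG_ne_lineInf _ _ h.symm
  · exact lineB_ne_lineInf _ _ hx h.symm

lemma inf_notMem_Tc (μ : QuadraticAlgebra K ε 1) (c : K) :
    (lineInf : Submodule K (QuadraticAlgebra K ε 1 × QuadraticAlgebra K ε 1)) ∉ Tc μ c := by
  rw [mem_Tc]
  rintro (⟨m, a, ha, h⟩ | ⟨x, hx, h⟩)
  · exact lineG_ne_lineInf _ _ h.symm
  · exact lineB_ne_lineInf _ _ hx h.symm

lemma Spr_one_ne (h2 : (2 : K) = 0) {μ : QuadraticAlgebra K ε 1} (hμ0 : μ ≠ 0)
    (u : QuadraticAlgebra K ε 1) : Spr μ u 1 ≠ Spr μ 0 ω := by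
  intro h
  have h3 := lineB_mem μ u 1 (one_ne_zero (α := QuadraticAlgebra K ε 1))
  have h4 := h3
  rw [h] at h4
  obtain ⟨k, k', hk', _, e⟩ := Spr_inter h2 hμ0 one_ne_zero omega_ne_zero h3 h4
  have := congrArg QuadraticAlgebra.im e
  simp at this

lemma Spr_one_ne_Sig (μ u : QuadraticAlgebra K ε 1) : Spr μ u 1 ≠ Sig := by
  intro h
  apply inf_notMem_Spr μ u (one_ne_zero (α := QuadraticAlgebra K ε 1))
  rw [h]
  exact Or.inl rfl

lemma isPack2 [Fintype K] (h2 : (2 : K) = 0) {μ : QuadraticAlgebra K ε 1} (hμ : Good μ)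
    (hμ0 : μ ≠ 0) : IsPack (P2 μ) := by
  have h0 := isPack h2 hμ hμ0
  have hω := omega_ne_zero (K := K) (ε := ε)
  have h1 : IsPack ((insert Sig (HallSet μ)) \ {Sig, Spr μ 0 ω} ∪
      {Full 0 0 ω μ, Sw 0 0 ω 0}) := by
    refine pack_switch finrank_V h0 ?_ ?_ ?_ ?_
    · rintro S (rfl | h)
      · exact Set.mem_insert _ _
      · rw [Set.mem_singleton_iff] at h
        exact Set.mem_insert_of_mem _ ⟨0, ω, hω, h⟩
    · rintro S (rfl | h)
      · exact Full_isPart h2 hμ hω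
      · rw [Set.mem_singleton_iff] at h
        rw [h]
        exact Sw_isPart h2 (good_zero h2) hω
    · rintro S hS T hT hne
      rw [Set.mem_insert_iff, Set.mem_singleton_iff] at hS hT
      rcases hS with rfl | rfl <;> rcases hT with rfl | rfl
      · exact absurd rfl hne
      · exact first_disj h2 hμ0 0 hω
      · exact (first_disj h2 hμ0 0 hω).symm
      · exact absurd rfl hne
    · intro l
      have := first_union μ 0 hω l
      simp only [Set.mem_insert_iff, Set.mem_singleton_iff, exists_eq_or_imp, exists_eq_left]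
      exact this
  refine pack_switch finrank_V h1 ?_ ?_ ?_ ?_
  · rintro S ⟨u, hu, rfl⟩
    refine Or.inl ⟨Set.mem_insert_of_mem _ ⟨u, 1, one_ne_zero, rfl⟩, ?_⟩
    rw [Set.mem_insert_iff, Set.mem_singleton_iff, not_or]
    exact ⟨Spr_one_ne_Sig μ u, Spr_one_ne h2 hμ0 u⟩
  · rintro S ⟨c, hc, rfl⟩
    exact Sw_isPart h2 (good_zero h2) one_ne_zero
  · rintro S ⟨c, hc, rfl⟩ T ⟨c', hc', rfl⟩ hne
    exact Tc_disj h2 hμ hμ0 (fun e => hne (by rw [e]))
  · intro l
    have := second_union h2 hμ l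
    constructor
    · rintro ⟨S, ⟨u, hu, rfl⟩, hl⟩
      obtain ⟨c, hc, hl⟩ := this.mp ⟨u, hu, hl⟩
      exact ⟨_, ⟨c, hc, rfl⟩, hl⟩
    · rintro ⟨S, ⟨c, hc, rfl⟩, hl⟩
      obtain ⟨u, hu, hl⟩ := this.mpr ⟨c, hc, hl⟩
      exact ⟨_, ⟨u, hu, rfl⟩, hl⟩

/-! ### The fourth spread and the cycle of length five -/

lemma mem_U {μ : QuadraticAlgebra K ε 1}
    {l : Submodule K (QuadraticAlgebra K ε 1 × QuadraticAlgebra K ε 1)} (h : l ∈ Full ω μ 1 0) :
    l = lineInf ∨ ∃ α : QuadraticAlgebra K ε 1, l = lineG α μ := by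
  unfold Full Pl at h
  simp only [Set.mem_ofPred_eq, mul_zero, smul_zero, add_zero] at h
  rcases h with h | ⟨m, a, h⟩
  · exact Or.inl h
  · exact Or.inr ⟨_, h⟩

theorem deficiency_two_even [Fintype K] (h2 : (2 : K) = 0) {k : K} (hk : k ≠ 0)
    (hgood : ∀ r : K, r ^ 2 + r + ε + k ^ 2 ≠ 0) :
    (∃ P, IsCompletePartialPacking K (QuadraticAlgebra K ε 1 × QuadraticAlgebra K ε 1) P 2) ∧
      ∃ P0 : Set (Set (Submodule K (QuadraticAlgebra K ε 1 × QuadraticAlgebra K ε 1))),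
        IsPack P0 := by
  set μ : QuadraticAlgebra K ε 1 := ⟨k, 0⟩ with hμdef
  have hω := omega_ne_zero (K := K) (ε := ε)
  have hN : QuadraticAlgebra.norm μ = k ^ 2 := by
    rw [norm_def, hμdef]
    simp only
    ring
  have hμ : Good μ := by
    intro r
    rw [hN]
    exact hgood r
  have hμ0 : μ ≠ 0 := by
    intro h
    have := congrArg QuadraticAlgebra.re h
    exact hk this
  have hpack := isPack2 h2 hμ hμ0
  refine ⟨⟨_, deficiency_two finrank_V hpack (S1 := Full 0 0 ω μ) (S2 := Spr μ 0 1)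
    (S3 := Tc μ 1) (U := Full ω μ 1 0) ?_ ?_ ?_ ?_ ?_ ?_ (Full_isPart h2 (good_zero h2) one_ne_zero)
    ?_ ?_⟩, _, hpack⟩
  · -- R
    refine Or.inl ⟨Or.inr (Set.mem_insert _ _), ?_⟩
    rintro ⟨u, hu, h⟩
    apply inf_notMem_Spr μ u (one_ne_zero (α := QuadraticAlgebra K ε 1))
    rw [← h]
    exact Or.inl rfl
  · refine Or.inl ⟨Or.inl ⟨Set.mem_insert_of_mem _ ⟨0, 1, one_ne_zero, rfl⟩, ?_⟩, ?_⟩
    · rw [Set.mem_insert_iff, Set.mem_singleton_iff, not_or]
      exact ⟨Spr_one_ne_Sig μ 0, Spr_one_ne h2 hμ0 0⟩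
    · rintro ⟨u, hu, h⟩
      have h3 := lineB_mem μ 0 1 (one_ne_zero (α := QuadraticAlgebra K ε 1))
      have h4 := h3
      rw [h] at h4
      obtain ⟨c, c', hc', e, _⟩ := Spr_inter h2 hμ0 one_ne_zero one_ne_zero h3 h4
      apply hu
      rw [e]; simp
  · exact Or.inr ⟨1, one_ne_zero, rfl⟩
  · intro h
    apply inf_notMem_Spr μ 0 (one_ne_zero (α := QuadraticAlgebra K ε 1))
    rw [← h]
    exact Or.inl rfl
  · intro h
    apply inf_notMem_Tc μ 1
    rw [← h]
    exact Or.inl rfl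
  · intro h
    have h3 := lineB_mem μ 0 1 (one_ne_zero (α := QuadraticAlgebra K ε 1))
    rw [h, mem_Tc] at h3
    rcases h3 with ⟨m, a, ha, h3⟩ | ⟨x, hx, h3⟩
    · exact lineG_ne_lineB _ _ _ one_ne_zero one_ne_zero h3.symm
    · obtain ⟨a, d, c, ha, hc, e1, e2, e3⟩ := lineB_inj one_ne_zero one_ne_zero one_ne_zero hx h3
      have := congrArg QuadraticAlgebra.im e3
      rw [one_smul, zero_add, im_smul, im_one, smul_zero] at this
      exact w_im h2 hμ hx this
  · -- U is contained in the union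
    intro l hl
    unfold Full Pl at hl
    simp only [Set.mem_ofPred_eq, mul_zero, smul_zero, add_zero, one_mul] at hl
    rcases hl with rfl | ⟨m, a, rfl⟩
    · exact Or.inl (Or.inl rfl)
    · right
      by_cases ha : a = 0
      · left
        refine mem_Spr.mpr (Or.inl ⟨m, 1, one_ne_zero, ?_⟩)
        rw [ha, zero_smul, add_zero, one_smul, one_smul, one_mul, one_mul, zero_add]
        congr 1
        ring
      · right
        refine mem_Tc.mpr (Or.inl ⟨m, a, ha, ?_⟩)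
        rw [one_smul, one_smul]
  · -- the cycle
    intro T hT hTs
    have hflip : ∀ l ∈ (Full 0 0 ω μ ∪ (Spr μ 0 1 ∪ Tc μ 1)) \ Full ω μ 1 0,
        ∀ m ∈ (Full 0 0 ω μ ∪ (Spr μ 0 1 ∪ Tc μ 1)) \ Full ω μ 1 0, l ≠ m →
        ∀ p, p ≠ 0 → p ∈ l → p ∈ m → (l ∈ T ↔ m ∉ T) := by
      intro l hl m hm hne p hp hpl hpm
      refine flip (Full_isPart h2 hμ hω) (Sw_isPart h2 hμ one_ne_zero)
        (Sw_isPart h2 (good_zero h2) one_ne_zero) (Full_isPart h2 (good_zero h2) one_ne_zero)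
        ?_ hT hTs hl hm hne hp hpl hpm
      -- inclusion again
      intro l hl
      unfold Full Pl at hl
      simp only [Set.mem_ofPred_eq, mul_zero, smul_zero, add_zero, one_mul] at hl
      rcases hl with rfl | ⟨m, a, rfl⟩
      · exact Or.inl (Or.inl rfl)
      · right
        by_cases ha : a = 0
        · left
          refine mem_Spr.mpr (Or.inl ⟨m, 1, one_ne_zero, ?_⟩)
          rw [ha, zero_smul, add_zero, one_smul, one_smul, one_mul, one_mul, zero_add]
          congr 1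
          ring
        · right
          refine mem_Tc.mpr (Or.inl ⟨m, a, ha, ?_⟩)
          rw [one_smul, one_smul]
    have hωi : (ω + 1 : QuadraticAlgebra K ε 1) ≠ 0 := by
      intro h
      have := congrArg QuadraticAlgebra.im h
      simp at this
    have notU_B : ∀ u v x : QuadraticAlgebra K ε 1, v ≠ 0 → x ≠ 0 →
        lineB u v x ∉ Full ω μ 1 0 := by
      intro u v x hv hx h
      rcases mem_U h with h | ⟨α, h⟩
      · exact lineB_ne_lineInf _ _ hx h
      · exact lineG_ne_lineB _ _ _ hv hx h.symm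
    -- the five lines
    have m1 : lineB (ω + μ) 1 (1 : QuadraticAlgebra K ε 1) ∈
        (Full 0 0 ω μ ∪ (Spr μ 0 1 ∪ Tc μ 1)) \ Full ω μ 1 0 := by
      refine ⟨Or.inr (Or.inr (mem_Tc.mpr (Or.inr ⟨1, one_ne_zero, ?_⟩))),
        notU_B _ _ _ one_ne_zero one_ne_zero⟩
      rw [star_one, div_one, mul_one, one_smul]
    have m2 : lineB 0 1 (1 : QuadraticAlgebra K ε 1) ∈
        (Full 0 0 ω μ ∪ (Spr μ 0 1 ∪ Tc μ 1)) \ Full ω μ 1 0 :=
      ⟨Or.inr (Or.inl (lineB_mem μ 0 1 one_ne_zero)), notU_B _ _ _ one_ne_zero one_ne_zero⟩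
    have m3 : lineG 0 (0 : QuadraticAlgebra K ε 1) ∈
        (Full 0 0 ω μ ∪ (Spr μ 0 1 ∪ Tc μ 1)) \ Full ω μ 1 0 := by
      constructor
      · refine Or.inl (Or.inr ⟨0, 0, ?_⟩)
        unfold Pl
        simp
      · intro h
        rcases mem_U h with h | ⟨α, h⟩
        · exact lineG_ne_lineInf _ _ h
        · exact hμ0 (lineG_inj h2 h).2.symm
    have m4 : lineB 0 1 (ω + 1 : QuadraticAlgebra K ε 1) ∈
        (Full 0 0 ω μ ∪ (Spr μ 0 1 ∪ Tc μ 1)) \ Full ω μ 1 0 :=
      ⟨Or.inr (Or.inl (lineB_mem μ 0 1 hωi)), notU_B _ _ _ one_ne_zero hωi⟩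
    have m5 : Pl 0 0 ω μ (1 + ε + ε / k) (ε / k) ∈
        (Full 0 0 ω μ ∪ (Spr μ 0 1 ∪ Tc μ 1)) \ Full ω μ 1 0 := by
      constructor
      · exact Or.inl (Or.inr ⟨_, _, rfl⟩)
      · intro h
        rcases mem_U h with h | ⟨α, h⟩
        · exact lineG_ne_lineInf _ _ h
        · have e := (lineG_inj h2 h).2
          have e1 := congrArg QuadraticAlgebra.re e
          simp [hμdef] at e1
          exact hk e1.symm
    have hn23 : lineB 0 1 (1 : QuadraticAlgebra K ε 1) ≠ lineG 0 0 :=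
      (lineG_ne_lineB _ _ _ one_ne_zero one_ne_zero).symm
    have f12 := hflip _ m1 _ m2 (by
      intro h
      obtain ⟨a, c, d, _, _, _, _, e⟩ := lineB_inj one_ne_zero one_ne_zero one_ne_zero one_ne_zero h
      have := congrArg QuadraticAlgebra.im e
      simp [hμdef] at this) ((0 : QuadraticAlgebra K ε 1), (1 : QuadraticAlgebra K ε 1))
      (by intro h; exact one_ne_zero (Prod.ext_iff.mp h).2) ⟨0, 1, by simp, by simp⟩
      ⟨0, 1, by simp, by simp⟩
    have f23 := hflip _ m2 _ m3 hn23 ((1 : QuadraticAlgebra K ε 1), (0 : QuadraticAlgebra K ε 1))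
      (by intro h; exact one_ne_zero (Prod.ext_iff.mp h).1) ⟨1, 0, by simp, by simp⟩
      (by rw [mem_lineG]; simp)
    have f34 := hflip _ m3 _ m4 (lineG_ne_lineB _ _ _ one_ne_zero hωi)
      ((ω + 1 : QuadraticAlgebra K ε 1), (0 : QuadraticAlgebra K ε 1))
      (by intro h; exact hωi (Prod.ext_iff.mp h).1) (by rw [mem_lineG]; simp)
      ⟨1, 0, by simp, by simp⟩
    have f45 := hflip _ m4 _ m5 (lineG_ne_lineB _ _ _ one_ne_zero hωi).symm
      ((ω + 1 : QuadraticAlgebra K ε 1), (ε + ε ^ 2 / k) • (ω + 1 : QuadraticAlgebra K ε 1))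
      (by intro h; exact hωi (Prod.ext_iff.mp h).1) ⟨1, ε + ε ^ 2 / k, by simp, by simp⟩ (by
        unfold Pl
        rw [mem_lineG]
        ext
        · simp [hμdef]
          field_simp
          linear_combination (-ε ^ 2) * h2
        · simp [hμdef]
          field_simp
          linear_combination (-(ε * 2) - ε * k - k) * h2)
    have f51 := hflip _ m5 _ m1 (lineG_ne_lineB _ _ _ one_ne_zero one_ne_zero)
      ((1 : QuadraticAlgebra K ε 1), ω + (ε ^ 2 / k) • (1 : QuadraticAlgebra K ε 1))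
      (by intro h; exact one_ne_zero (Prod.ext_iff.mp h).1) (by
        unfold Pl
        rw [mem_lineG]
        ext
        · simp [hμdef]
          field_simp
        · simp [hμdef]
          field_simp
          linear_combination (-(k * ε) - ε) * h2) (by
        refine ⟨1, ε ^ 2 / k - k, ?_, ?_⟩
        · simp
        · ext
          · simp [hμdef]
          · simp [hμdef])
    tauto

/-- Existence of the parameters. -/
lemma exists_params {K : Type*} [Field K] [Fintype K] (h2 : (2 : K) = 0)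
    (hcard : 2 < Fintype.card K) :
    ∃ ε k : K, (∀ r : K, r ^ 2 ≠ ε + 1 * r) ∧ k ≠ 0 ∧ ∀ r : K, r ^ 2 + r + ε + k ^ 2 ≠ 0 := by
  classical
  have hns : ¬ Function.Surjective (fun r : K => r ^ 2 + r) := by
    intro hs
    have hi := Finite.injective_iff_surjective.mpr hs
    have : (0 : K) = 1 := by
      apply hi
      simp only
      linear_combination -h2
    exact zero_ne_one this
  unfold Function.Surjective at hns
  push Not at hns
  obtain ⟨ε, hε⟩ := hns
  obtain ⟨s, hs⟩ : ∃ s : K, s ∉ ({0, 1} : Finset K) := by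
    by_contra hcon
    push Not at hcon
    have : (Finset.univ : Finset K) ⊆ {0, 1} := fun x _ => hcon x
    have h3 := Finset.card_le_card this
    rw [Finset.card_univ] at h3
    have h4 := Finset.card_le_two (a := (0 : K)) (b := 1)
    omega
  simp only [Finset.mem_insert, Finset.mem_singleton, not_or] at hs
  have hchar : ringChar K = 2 := by
    have hc : CharP K 2 := CharTwo.of_one_ne_zero_of_two_eq_zero one_ne_zero h2
    exact ringChar.eq K 2
  obtain ⟨k, hk⟩ := FiniteField.isSquare_of_char_two hchar (s ^ 2 + s)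
  have hs1 : s + 1 ≠ 0 := by
    intro h
    apply hs.2
    linear_combination h - h2
  refine ⟨ε, k, ?_, ?_, ?_⟩
  · intro r hr
    apply hε r
    linear_combination hr + r * h2
  · rintro rfl
    have : s * (s + 1) = 0 := by linear_combination hk
    rcases mul_eq_zero.mp this with h | h
    · exact hs.1 h
    · exact hs1 h
  · intro r hr
    apply hε (r + s)
    linear_combination hr + hk + (r * s - ε) * h2

end

end Pool.Agent.Lib.MP_9569f1_co.Even
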