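import Pool.Agent.Lib.MP_9569f1_co.Even.Planes

/-! # A packing of `PG(3,q)`, `q ≥ 4` even. -/

set_option autoImplicit false
set_option linter.unusedSectionVars false
set_option linter.unusedVariables false

namespace Pool.Agent.Lib.MP_9569f1_co.Even

open Module QuadraticAlgebra

section

variable {K : Type*} [Field K] {ε : K}

/-- The regular spread `Σ`. -/
def Sig : Set (Submodule K (QuadraticAlgebra K ε 1 × QuadraticAlgebra K ε 1)) :=
  {l | l = lineInf ∨ ∃ α : QuadraticAlgebra K ε 1, l = lineG α 0}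

variable [Hab : Fact (∀ r : K, r ^ 2 ≠ ε + 1 * r)]

/-- The Hall spreads of the packing. -/
def Spr (μ u v : QuadraticAlgebra K ε 1) :
    Set (Submodule K (QuadraticAlgebra K ε 1 × QuadraticAlgebra K ε 1)) := Sw u 0 v μ

lemma mem_Spr {μ u v : QuadraticAlgebra K ε 1}
    {l : Submodule K (QuadraticAlgebra K ε 1 × QuadraticAlgebra K ε 1)} :
    l ∈ Spr μ u v ↔ (∃ m a : K, a ≠ 0 ∧ l = lineG (u + v * (m • 1 + a • ω)) (a • (v * μ))) ∨
      ∃ x : QuadraticAlgebra K ε 1, x ≠ 0 ∧ l = lineB u v x := by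
  unfold Spr Sw Pl
  simp only [Set.mem_ofPred_eq, zero_add, zero_mul, add_zero]

lemma Full_zero (u : QuadraticAlgebra K ε 1) {v : QuadraticAlgebra K ε 1} (hv : v ≠ 0) :
    Full u 0 v 0 = (Sig : Set (Submodule K (QuadraticAlgebra K ε 1 × QuadraticAlgebra K ε 1))) := by
  ext l
  unfold Full Sig Pl
  simp only [Set.mem_ofPred_eq, mul_zero, smul_zero, add_zero]
  constructor
  · rintro (h | ⟨m, a, rfl⟩)
    · exact Or.inl h
    · exact Or.inr ⟨_, rfl⟩
  · rintro (h | ⟨α, rfl⟩)
    · exact Or.inl h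
    · refine Or.inr ⟨((α - u) / v).re, ((α - u) / v).im, ?_⟩
      have e : ((α - u) / v).re • (1 : QuadraticAlgebra K ε 1) + ((α - u) / v).im • ω =
          (α - u) / v := by
        ext <;> simp
      rw [e, mul_div_cancel₀ _ hv, add_sub_cancel]

lemma Sig_isPart (h2 : (2 : K) = 0) : IsPart (Sig : Set (Submodule K
    (QuadraticAlgebra K ε 1 × QuadraticAlgebra K ε 1))) := by
  rw [← Full_zero 0 (one_ne_zero (α := QuadraticAlgebra K ε 1))]
  exact Full_isPart h2 (good_zero h2) one_ne_zero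

/-- every line is in one of the spreads of the packing -/
lemma covering (h2 : (2 : K) = 0) {μ : QuadraticAlgebra K ε 1} (hμ0 : μ ≠ 0)
    {l : Submodule K (QuadraticAlgebra K ε 1 × QuadraticAlgebra K ε 1)} (hl : finrank K l = 2) :
    l ∈ (Sig : Set (Submodule K (QuadraticAlgebra K ε 1 × QuadraticAlgebra K ε 1))) ∨
      ∃ u v : QuadraticAlgebra K ε 1, v ≠ 0 ∧ l ∈ Spr μ u v := by
  by_cases hinf : ∃ z : QuadraticAlgebra K ε 1, z ≠ 0 ∧ (0, z) ∈ l
  · obtain ⟨z, hz, hzl⟩ := hinf
    by_cases hall : ∀ p ∈ l, p.1 = 0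
    · left; left
      apply Submodule.eq_of_le_of_finrank_eq
      · intro p hp; exact hall p hp
      · rw [hl, finrank_lineInf]
    · push Not at hall
      obtain ⟨p, hp, hp1⟩ := hall
      right
      refine ⟨p.2 / p.1, z / p.1, div_ne_zero hz hp1, mem_Spr.mpr (Or.inr ⟨p.1, hp1, ?_⟩)⟩
      symm
      apply Submodule.eq_of_le_of_finrank_eq
      · rintro q ⟨a, b, h3, h4⟩
        have h5 : q = a • p + b • ((0 : QuadraticAlgebra K ε 1), z) := by
          apply Prod.ext
          · rw [h3]; simp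
          · rw [h4, div_mul_cancel₀ _ hp1, div_mul_cancel₀ _ hp1]; rfl
        rw [h5]
        exact l.add_mem (l.smul_mem a hp) (l.smul_mem b hzl)
      · rw [hl, finrank_lineB _ (div_ne_zero hz hp1) hp1]
  · push Not at hinf
    -- the projection is bijective
    let T : l →ₗ[K] QuadraticAlgebra K ε 1 :=
      (LinearMap.fst K (QuadraticAlgebra K ε 1) (QuadraticAlgebra K ε 1)).comp l.subtype
    have hinj : Function.Injective T := by
      rw [← LinearMap.ker_eq_bot, LinearMap.ker_eq_bot']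
      rintro ⟨p, hp⟩ h
      have h1 : p.1 = 0 := h
      by_cases h3 : p.2 = 0
      · exact Subtype.ext (Prod.ext h1 h3)
      · exfalso
        apply hinf p.2 h3
        rw [← h1]; exact hp
    have hfd : FiniteDimensional K l := Module.finite_of_finrank_pos (by rw [hl]; norm_num)
    have hsurj : Function.Surjective T := by
      rw [← LinearMap.injective_iff_surjective_of_finrank_eq_finrank]
      · exact hinj
      · rw [hl, QuadraticAlgebra.finrank_eq_two]
    obtain ⟨⟨p, hp⟩, hp1⟩ := hsurj 1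
    obtain ⟨⟨q, hq⟩, hq1⟩ := hsurj ω
    have hp1' : p.1 = 1 := hp1
    have hq1' : q.1 = ω := hq1
    set γ : QuadraticAlgebra K ε 1 := q.2 - ω * p.2 with hγ
    set α : QuadraticAlgebra K ε 1 := p.2 - γ with hα
    have e1 : p.2 = α + γ := by rw [hα]; ring
    have e2 : q.2 = α * ω + γ * (ω + 1) := by rw [hα, hγ]; ring
    have h2' : (2 : QuadraticAlgebra K ε 1) = 0 := two_eq_zero h2
    have hlG : l = lineG α γ := by
      apply Submodule.eq_of_le_of_finrank_eq
      · intro r hr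
        have h3 : r = r.1.re • p + r.1.im • q := by
          have h4 : r - (r.1.re • p + r.1.im • q) ∈ l :=
            l.sub_mem hr (l.add_mem (l.smul_mem _ hp) (l.smul_mem _ hq))
          have h5 : (r - (r.1.re • p + r.1.im • q)).1 = 0 := by
            simp only [Prod.fst_sub, Prod.fst_add, Prod.smul_fst, hp1', hq1']
            ext <;> simp
          have h6 : (r - (r.1.re • p + r.1.im • q)).2 = 0 := by
            by_contra h7
            apply hinf _ h7
            rw [← h5]; exact h4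
          exact sub_eq_zero.mp (Prod.ext h5 h6)
        have h7 : r.2 = r.1.re • (α + γ) + r.1.im • (α * ω + γ * (ω + 1)) := by
          rw [← e1, ← e2]
          exact (Prod.ext_iff.mp h3).2
        have h8 : r.1 = r.1.re • (1 : QuadraticAlgebra K ε 1) + r.1.im • ω := by
          ext <;> simp
        have h9 : star r.1 = r.1.re • (1 : QuadraticAlgebra K ε 1) + r.1.im • (ω + 1) := by
          ext
          · simp
          · simp
            linear_combination (-r.1.im) * h2
        rw [mem_lineG, h9]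
        conv_rhs => rw [h8]
        rw [h7]
        simp only [Algebra.smul_def, re_add, im_add]
        simp
        ring
      · rw [hl, finrank_lineG]
    by_cases hγ0 : γ = 0
    · left; right
      exact ⟨α, by rw [hlG, hγ0]⟩
    · right
      refine ⟨α - γ / μ * ω, γ / μ, div_ne_zero hγ0 hμ0, mem_Spr.mpr
        (Or.inl ⟨0, 1, one_ne_zero, ?_⟩)⟩
      rw [hlG, zero_smul, zero_add, one_smul, one_smul, sub_add_cancel, div_mul_cancel₀ _ hμ0]

lemma Sig_disjoint_Spr (h2 : (2 : K) = 0) {μ : QuadraticAlgebra K ε 1} (hμ0 : μ ≠ 0)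
    (u : QuadraticAlgebra K ε 1) {v : QuadraticAlgebra K ε 1} (hv : v ≠ 0) :
    Disjoint (Sig : Set (Submodule K (QuadraticAlgebra K ε 1 × QuadraticAlgebra K ε 1)))
      (Spr μ u v) := by
  rw [Set.disjoint_left]
  intro l hl hl'
  rw [mem_Spr] at hl'
  rcases hl with rfl | ⟨α, rfl⟩ <;> rcases hl' with ⟨m, a, ha, h⟩ | ⟨x, hx, h⟩
  · exact lineG_ne_lineInf _ _ h.symm
  · exact lineB_ne_lineInf _ _ hx h.symm
  · have := (lineG_inj h2 h).2
    exact smul_ne_zero ha (mul_ne_zero hv hμ0) this.symm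
  · exact lineG_ne_lineB _ _ _ hv hx h

lemma Spr_congr {μ u v : QuadraticAlgebra K ε 1} (k : K) {k' : K} (hk' : k' ≠ 0) :
    Spr μ (u + k • v) (k' • v) = Spr μ u v := by
  have sub1 : ∀ (u v : QuadraticAlgebra K ε 1) (k k' : K), k' ≠ 0 →
      Spr μ (u + k • v) (k' • v) ⊆ Spr μ u v := by
    intro u v k k' hk' l hl
    rw [mem_Spr] at hl ⊢
    rcases hl with ⟨m, a, ha, rfl⟩ | ⟨x, hx, rfl⟩
    · left
      refine ⟨k + m * k', a * k', mul_ne_zero ha hk', ?_⟩
      congr 1
      · simp only [Algebra.smul_def, map_add, map_mul]; ring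
      · rw [smul_mul_assoc, smul_smul]
    · right
      refine ⟨x, hx, ?_⟩
      have := lineB_congr u v x k (one_ne_zero (α := K)) hk'
      rw [one_smul] at this
      exact this
  apply Set.Subset.antisymm (sub1 u v k k' hk')
  have := sub1 (u + k • v) (k' • v) (-(k * k'⁻¹)) k'⁻¹ (inv_ne_zero hk')
  rw [smul_smul, smul_smul, inv_mul_cancel₀ hk', one_smul, neg_mul, mul_assoc,
    inv_mul_cancel₀ hk', mul_one, neg_smul, add_neg_cancel_right] at this
  exact this

lemma Spr_inter (h2 : (2 : K) = 0) {μ : QuadraticAlgebra K ε 1} (hμ0 : μ ≠ 0)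
    {u u' v v' : QuadraticAlgebra K ε 1} (hv : v ≠ 0) (hv' : v' ≠ 0)
    {l : Submodule K (QuadraticAlgebra K ε 1 × QuadraticAlgebra K ε 1)}
    (h : l ∈ Spr μ u v) (h' : l ∈ Spr μ u' v') : ∃ k k' : K, k' ≠ 0 ∧ u' = u + k • v ∧
      v' = k' • v := by
  rw [mem_Spr] at h h'
  rcases h with ⟨m, a, ha, rfl⟩ | ⟨x, hx, rfl⟩
  · rcases h' with ⟨m', a', ha', h⟩ | ⟨x', hx', h⟩
    · obtain ⟨e1, e2⟩ := lineG_inj h2 h
      have e3 : a • v = a' • v' := by
        apply mul_right_cancel₀ hμ0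
        rw [smul_mul_assoc, smul_mul_assoc, e2]
      have e4 : v' = (a / a') • v := by
        rw [div_eq_inv_mul, mul_smul, e3, smul_smul, inv_mul_cancel₀ ha', one_smul]
      refine ⟨m - m' * (a / a'), a / a', div_ne_zero ha ha', ?_, e4⟩
      have e5 : u + m • v = u' + m' • v' := by
        simp only [Algebra.smul_def, mul_one] at e1 e3 ⊢
        linear_combination e1 - ω * e3
      rw [sub_smul, mul_smul, ← e4]
      linear_combination (exp := 1) -e5
    · exact absurd h (lineG_ne_lineB _ _ _ hv' hx')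
  · rcases h' with ⟨m', a', ha', h⟩ | ⟨x', hx', h⟩
    · exact absurd h.symm (lineG_ne_lineB _ _ _ hv hx)
    · obtain ⟨a, c, k, ha, hk, e1, e2, e3⟩ := lineB_inj hv hv' hx hx' h
      exact ⟨c, k, hk, e3, e2⟩

/-- The set of Hall spreads of the packing. -/
def HallSet (μ : QuadraticAlgebra K ε 1) :
    Set (Set (Submodule K (QuadraticAlgebra K ε 1 × QuadraticAlgebra K ε 1))) :=
  {S | ∃ u v : QuadraticAlgebra K ε 1, v ≠ 0 ∧ S = Spr μ u v}

lemma lineB_mem (μ u v : QuadraticAlgebra K ε 1) {x : QuadraticAlgebra K ε 1} (hx : x ≠ 0) :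
    lineB u v x ∈ Spr μ u v :=
  mem_Spr.mpr (Or.inr ⟨x, hx, rfl⟩)

lemma Spr_eq_or_disjoint (h2 : (2 : K) = 0) {μ : QuadraticAlgebra K ε 1} (hμ0 : μ ≠ 0)
    {u u' v v' : QuadraticAlgebra K ε 1} (hv : v ≠ 0) (hv' : v' ≠ 0)
    (hne : Spr μ u v ≠ Spr μ u' v') : Disjoint (Spr μ u v) (Spr μ u' v') := by
  rw [Set.disjoint_left]
  intro l hl hl'
  obtain ⟨k, k', hk', rfl, rfl⟩ := Spr_inter h2 hμ0 hv hv' hl hl'
  exact hne (Spr_congr k hk').symm

open Classical in
lemma card_HallSet [Fintype K] (h2 : (2 : K) = 0) {μ : QuadraticAlgebra K ε 1} (hμ0 : μ ≠ 0) :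
    (HallSet μ).ncard = Fintype.card K ^ 2 + Fintype.card K := by
  have : Fintype (QuadraticAlgebra K ε 1) := Fintype.ofEquiv _ (equivProd ε 1).symm
  have hF : Fintype.card (QuadraticAlgebra K ε 1) = Fintype.card K ^ 2 := by
    rw [Module.card_eq_pow_finrank (K := K) (V := QuadraticAlgebra K ε 1),
      QuadraticAlgebra.finrank_eq_two]
  set D : Finset (QuadraticAlgebra K ε 1 × QuadraticAlgebra K ε 1) :=
    Finset.univ ×ˢ (Finset.univ.erase 0) with hD
  have memD : ∀ p, p ∈ D ↔ p.2 ≠ 0 := fun p => by simp [hD]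
  have hDcard : D.card = Fintype.card K ^ 2 * (Fintype.card K ^ 2 - 1) := by
    rw [hD, Finset.card_product, Finset.card_erase_of_mem (Finset.mem_univ _), Finset.card_univ, hF]
  set Φ : QuadraticAlgebra K ε 1 × QuadraticAlgebra K ε 1 →
    Set (Submodule K (QuadraticAlgebra K ε 1 × QuadraticAlgebra K ε 1)) :=
    fun p => Spr μ p.1 p.2 with hΦ
  have himg : HallSet μ = (D.image Φ : Set _) := by
    ext S
    simp only [HallSet, Set.mem_ofPred_eq, Finset.coe_image, Set.mem_image, Finset.mem_coe, memD]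
    constructor
    · rintro ⟨u, v, hv, rfl⟩; exact ⟨(u, v), hv, rfl⟩
    · rintro ⟨p, hp, rfl⟩; exact ⟨p.1, p.2, hp, rfl⟩
  rw [himg, Set.ncard_coe_finset]
  have hfib : ∀ S ∈ D.image Φ, (D.filter (fun p => Φ p = S)).card =
      Fintype.card K * (Fintype.card K - 1) := by
    intro S hS
    rw [Finset.mem_image] at hS
    obtain ⟨⟨u, v⟩, hp, rfl⟩ := hS
    have hv : v ≠ 0 := (memD _).mp hp
    have heq : D.filter (fun p => Φ p = Φ (u, v)) =
        ((Finset.univ : Finset K) ×ˢ ((Finset.univ : Finset K).erase 0)).image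
          (fun c => (u + c.1 • v, c.2 • v)) := by
      ext ⟨u', v'⟩
      simp only [Finset.mem_filter, memD, Finset.mem_image, Finset.mem_product, Finset.mem_univ,
        Finset.mem_erase, true_and, and_true, hΦ]
      constructor
      · rintro ⟨hv', h⟩
        have h3 : lineB u v 1 ∈ Spr μ u' v' := by rw [h]; exact lineB_mem μ u v one_ne_zero
        obtain ⟨k, k', hk', e1, e2⟩ := Spr_inter h2 hμ0 hv hv' (lineB_mem μ u v one_ne_zero) h3
        exact ⟨(k, k'), hk', by rw [e1, e2]⟩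
      · rintro ⟨⟨k, k'⟩, hk', h⟩
        simp only [Prod.mk.injEq] at h
        obtain ⟨rfl, rfl⟩ := h
        exact ⟨smul_ne_zero hk' hv, Spr_congr k hk'⟩
    rw [heq, Finset.card_image_of_injective, Finset.card_product,
      Finset.card_erase_of_mem (Finset.mem_univ _), Finset.card_univ]
    rintro ⟨a, b⟩ ⟨a', b'⟩ h
    simp only [Prod.mk.injEq] at h
    have e1 : a = a' := by
      have := add_left_cancel h.1
      exact smul_left_injective K hv this
    have e2 : b = b' := smul_left_injective K hv h.2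
    rw [e1, e2]
  have hsum := Finset.card_eq_sum_card_image Φ D
  rw [Finset.sum_congr rfl hfib, Finset.sum_const, smul_eq_mul, hDcard] at hsum
  have hq2 : 2 ≤ Fintype.card K := Fintype.one_lt_card
  obtain ⟨c, hc⟩ := Nat.exists_eq_add_of_le hq2
  rw [hc] at hsum ⊢
  have e1 : (2 + c) ^ 2 - 1 = (c + 1) * (c + 3) := by
    have : (2 + c) ^ 2 = (c + 1) * (c + 3) + 1 := by ring
    rw [this]; simp
  have e2 : 2 + c - 1 = c + 1 := by omega
  rw [e1, e2] at hsum
  have hpos : 0 < (2 + c) * (c + 1) := by positivity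
  apply Nat.eq_of_mul_eq_mul_right hpos
  rw [← hsum]; ring

lemma isPack [Fintype K] (h2 : (2 : K) = 0) {μ : QuadraticAlgebra K ε 1} (hμ : Good μ)
    (hμ0 : μ ≠ 0) : IsPack (insert Sig (HallSet μ)) := by
  have hnot : Sig ∉ HallSet μ := by
    rintro ⟨u, v, hv, h⟩
    have h3 := Sig_disjoint_Spr h2 hμ0 u hv
    rw [← h, disjoint_self] at h3
    have h4 : (lineInf : Submodule K (QuadraticAlgebra K ε 1 × QuadraticAlgebra K ε 1)) ∈
      (Sig : Set (Submodule K (QuadraticAlgebra K ε 1 × QuadraticAlgebra K ε 1))) := Or.inl rfl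
    rw [h3] at h4
    exact h4
  have : Finite (QuadraticAlgebra K ε 1) := Finite.of_equiv _ (equivProd ε 1).symm
  refine ⟨?_, ?_, ?_, ?_⟩
  · rintro S (rfl | ⟨u, v, hv, rfl⟩)
    · exact Sig_isPart h2
    · exact Sw_isPart h2 hμ hv
  · rintro S (rfl | ⟨u, v, hv, rfl⟩) T (rfl | ⟨u', v', hv', rfl⟩) hne
    · exact absurd rfl hne
    · exact Sig_disjoint_Spr h2 hμ0 _ hv'
    · exact (Sig_disjoint_Spr h2 hμ0 _ hv).symm
    · exact Spr_eq_or_disjoint h2 hμ0 hv hv' hne
  · intro l hl
    rcases covering h2 hμ0 hl with h | ⟨u, v, hv, h⟩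
    · exact ⟨_, Set.mem_insert _ _, h⟩
    · exact ⟨_, Set.mem_insert_of_mem _ ⟨u, v, hv, rfl⟩, h⟩
  · rw [Set.ncard_insert_of_notMem hnot (Set.toFinite _), card_HallSet h2 hμ0]

end

end Pool.Agent.Lib.MP_9569f1_co.Even
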