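import Pool.Agent.Lib.MP_9569f1_co.Even.Lines

/-! # Regular spreads and switched regular spreads, `q` even. -/

set_option autoImplicit false
set_option linter.unusedSectionVars false
set_option linter.unusedVariables false

namespace Pool.Agent.Lib.MP_9569f1_co.Even

open Module QuadraticAlgebra

section

variable {K : Type*} [Field K] {ε : K}

/-- The line of the plane `(u, g) + v (K + K (ω + τ φ))` with parameters `m, a`. -/
def Pl (u g v τ : QuadraticAlgebra K ε 1) (m a : K) :
    Submodule K (QuadraticAlgebra K ε 1 × QuadraticAlgebra K ε 1) :=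
  lineG (u + v * (m • 1 + a • ω)) (g + a • (v * τ))

/-- The regular spread given by a plane. -/
def Full (u g v τ : QuadraticAlgebra K ε 1) :
    Set (Submodule K (QuadraticAlgebra K ε 1 × QuadraticAlgebra K ε 1)) :=
  {l | l = lineInf ∨ ∃ m a : K, l = Pl u g v τ m a}

/-- The switched spread. -/
def Sw (u g v τ : QuadraticAlgebra K ε 1) [Fact (∀ r : K, r ^ 2 ≠ ε + 1 * r)] :
    Set (Submodule K (QuadraticAlgebra K ε 1 × QuadraticAlgebra K ε 1)) :=
  {l | (∃ m a : K, a ≠ 0 ∧ l = Pl u g v τ m a) ∨
    ∃ x : QuadraticAlgebra K ε 1, x ≠ 0 ∧ l = lineB (u + g * (star x / x)) v x}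

variable [Hab : Fact (∀ r : K, r ^ 2 ≠ ε + 1 * r)]

lemma mem_Pl {u g v τ X Y : QuadraticAlgebra K ε 1} (hv : v ≠ 0) {m a : K} :
    (X, Y) ∈ Pl u g v τ m a ↔
      (Y - (u * X + g * star X)) / v = m • X + a • (ω * X + τ * star X) := by
  rw [Pl, mem_lineG, div_eq_iff hv, sub_eq_iff_eq_add]
  simp only [Algebra.smul_def, mul_one]
  constructor
  · intro h; rw [h]; ring
  · intro h; rw [h]; ring

lemma Full_isPart (h2 : (2 : K) = 0) {u g v τ : QuadraticAlgebra K ε 1} (hτ : Good τ)
    (hv : v ≠ 0) : IsPart (Full u g v τ) := by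
  refine ⟨?_, ?_, ?_⟩
  · rintro l (rfl | ⟨m, a, rfl⟩)
    · exact finrank_lineInf
    · exact finrank_lineG _ _
  · rintro ⟨X, Y⟩ hp
    by_cases hX : X = 0
    · exact ⟨lineInf, Or.inl rfl, hX⟩
    · obtain ⟨m, a, h⟩ := decomp_exists h2 hτ hX ((Y - (u * X + g * star X)) / v)
      exact ⟨_, Or.inr ⟨m, a, rfl⟩, (mem_Pl hv).mpr h⟩
  · rintro ⟨X, Y⟩ hp
    have key : ∀ m a : K, X = 0 → (X, Y) ∈ Pl u g v τ m a → False := by
      intro m a hX h
      rw [mem_Pl hv, hX] at h
      simp only [mul_zero, sub_zero, smul_zero, star_zero, add_zero] at h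
      rcases div_eq_zero_iff.mp h with h | h
      · exact hp (by rw [hX, h]; rfl)
      · exact hv h
    rintro l (rfl | ⟨m, a, rfl⟩) l' (rfl | ⟨m', a', rfl⟩) h1 h2'
    · rfl
    · exact (key m' a' h1 h2').elim
    · exact (key m a h2' h1).elim
    · by_cases hX : X = 0
      · exact (key m a hX h1).elim
      · rw [mem_Pl hv] at h1 h2'
        obtain ⟨h3, h4⟩ := decomp_uniq h2 hτ hX (h1.symm.trans h2')
        rw [h3, h4]

lemma mem_lineB' {u g v x X Y : QuadraticAlgebra K ε 1} (hx : x ≠ 0) (hX : X ≠ 0)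
    (hv : v ≠ 0) (h : (X, Y) ∈ lineB (u + g * (star x / x)) v x) :
    ∃ k j : K, k ≠ 0 ∧ X = k • x ∧ (Y - (u * X + g * star X)) / v = j • X := by
  obtain ⟨k, j, h1, h2⟩ := h
  simp only at h1 h2
  have hk : k ≠ 0 := by
    rintro rfl
    rw [zero_smul] at h1
    exact hX h1
  refine ⟨k, j / k, hk, h1, ?_⟩
  rw [div_eq_iff hv, h2, h1, star_smul', smul_smul, div_mul_cancel₀ _ hk]
  have e : g * (star x / x) * x = g * star x := by field_simp
  have e2 : (u + g * (star x / x)) * x = u * x + g * star x := by rw [add_mul, e]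
  rw [e2]
  simp only [Algebra.smul_def]; ring

lemma mem_lineB_of {u g v X Y : QuadraticAlgebra K ε 1} (hX : X ≠ 0)
    (hv : v ≠ 0) {j : K} (h : (Y - (u * X + g * star X)) / v = j • X) :
    (X, Y) ∈ lineB (u + g * (star X / X)) v X := by
  refine ⟨1, j, by simp, ?_⟩
  rw [div_eq_iff hv] at h
  have e : g * (star X / X) * X = g * star X := by field_simp
  have e2 : (u + g * (star X / X)) * X = u * X + g * star X := by rw [add_mul, e]
  simp only [one_smul]
  rw [e2]
  rw [Algebra.smul_def] at h ⊢
  linear_combination h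

lemma Sw_isPart (h2 : (2 : K) = 0) {u g v τ : QuadraticAlgebra K ε 1} (hτ : Good τ)
    (hv : v ≠ 0) : IsPart (Sw u g v τ) := by
  refine ⟨?_, ?_, ?_⟩
  · rintro l (⟨m, a, _, rfl⟩ | ⟨x, hx, rfl⟩)
    · exact finrank_lineG _ _
    · exact finrank_lineB _ hv hx
  · rintro ⟨X, Y⟩ hp
    by_cases hX : X = 0
    · have hY : Y ≠ 0 := fun h => hp (by rw [hX, h]; rfl)
      refine ⟨_, Or.inr ⟨Y / v, div_ne_zero hY hv, rfl⟩, 0, 1, ?_, ?_⟩
      · simp [hX]
      · simp only [zero_smul, one_smul, zero_add]
        field_simp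
    · obtain ⟨m, a, h⟩ := decomp_exists h2 hτ hX ((Y - (u * X + g * star X)) / v)
      by_cases ha : a = 0
      · rw [ha, zero_smul, add_zero] at h
        exact ⟨_, Or.inr ⟨X, hX, rfl⟩, mem_lineB_of hX hv h⟩
      · exact ⟨_, Or.inl ⟨m, a, ha, rfl⟩, (mem_Pl hv).mpr h⟩
  · rintro ⟨X, Y⟩ hp
    have key0 : ∀ m a : K, X = 0 → (X, Y) ∈ Pl u g v τ m a → False := by
      intro m a hX h
      rw [mem_Pl hv, hX] at h
      simp only [mul_zero, sub_zero, smul_zero, star_zero, add_zero] at h
      rcases div_eq_zero_iff.mp h with h | h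
      · exact hp (by rw [hX, h]; rfl)
      · exact hv h
    have key : ∀ (m a : K) (x : QuadraticAlgebra K ε 1), a ≠ 0 → x ≠ 0 →
        (X, Y) ∈ Pl u g v τ m a → (X, Y) ∈ lineB (u + g * (star x / x)) v x → False := by
      intro m a x ha hx h1 h3
      by_cases hX : X = 0
      · exact key0 m a hX h1
      · obtain ⟨k, j, hk, h4, h5⟩ := mem_lineB' hx hX hv h3
        rw [mem_Pl hv, h5] at h1
        have h6 : j • X + (0 : K) • (ω * X + τ * star X) = m • X + a • (ω * X + τ * star X) := by
          rw [zero_smul, add_zero]; exact h1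
        exact ha (decomp_uniq h2 hτ hX h6).2.symm
    rintro l (⟨m, a, ha, rfl⟩ | ⟨x, hx, rfl⟩) l' (⟨m', a', ha', rfl⟩ | ⟨x', hx', rfl⟩) h1 h3
    · by_cases hX : X = 0
      · exact (key0 m a hX h1).elim
      · rw [mem_Pl hv] at h1 h3
        obtain ⟨h4, h5⟩ := decomp_uniq h2 hτ hX (h1.symm.trans h3)
        rw [h4, h5]
    · exact (key m a x' ha hx' h1 h3).elim
    · exact (key m' a' x ha' hx h3 h1).elim
    · have hsm : ∃ k : K, k ≠ 0 ∧ x' = k • x := by
        by_cases hX : X = 0
        · obtain ⟨c, d, h5, h4⟩ := h1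
          obtain ⟨c', d', h5', h4'⟩ := h3
          simp only at h4 h5 h4' h5'
          have hc : c = 0 := by
            rw [hX] at h5
            rcases smul_eq_zero.mp h5.symm with h | h
            · exact h
            · exact absurd h hx
          have hc' : c' = 0 := by
            rw [hX] at h5'
            rcases smul_eq_zero.mp h5'.symm with h | h
            · exact h
            · exact absurd h hx'
          rw [hc, zero_smul, zero_add] at h4
          rw [hc', zero_smul, zero_add] at h4'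
          have hY : Y ≠ 0 := fun h => hp (by rw [hX, h]; rfl)
          have hd : d ≠ 0 := by
            rintro rfl
            rw [zero_smul] at h4
            exact hY h4
          have hd' : d' ≠ 0 := by
            rintro rfl
            rw [zero_smul] at h4'
            exact hY h4'
          refine ⟨d / d', div_ne_zero hd hd', ?_⟩
          have h5 : d • x = d' • x' := by
            have h6 : v * (d • x) = v * (d' • x') := by
              rw [mul_smul_comm, mul_smul_comm, ← h4, ← h4']
            exact mul_left_cancel₀ hv h6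
          rw [div_eq_inv_mul, mul_smul, h5, smul_smul, inv_mul_cancel₀ hd', one_smul]
        · obtain ⟨k, j, hk, h4, _⟩ := mem_lineB' hx hX hv h1
          obtain ⟨k', j', hk', h4', _⟩ := mem_lineB' hx' hX hv h3
          refine ⟨k / k', div_ne_zero hk hk', ?_⟩
          rw [div_eq_inv_mul, mul_smul, ← h4, h4', smul_smul, inv_mul_cancel₀ hk', one_smul]
      obtain ⟨k, hk, rfl⟩ := hsm
      have e : star (k • x) / (k • x) = star x / x := by
        rw [star_smul']
        simp only [Algebra.smul_def]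
        have hk2 : algebraMap K (QuadraticAlgebra K ε 1) k ≠ 0 := by
          rw [Ne, map_eq_zero]; exact hk
        field_simp
      rw [e]
      have := lineB_congr (u + g * (star x / x)) v x 0 hk (one_ne_zero (α := K))
      rw [zero_smul, add_zero, one_smul] at this
      exact this.symm

end

end Pool.Agent.Lib.MP_9569f1_co.Even
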